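import Pool.Agent.H3.BI.Stm2

/-!
# Part IT of the project BD (helper43)
-/

set_option autoImplicit false

open scoped ENNReal
open Finset

namespace Pool.Agent.H43.BD

open Pool.Agent.H3.BI

theorem nrm_eq {d : ℕ} (x : Site d) :
    nrm x = ‖(WithLp.toLp 2 (fun i => (x i : ℝ)) : EuclideanSpace ℝ (Fin d))‖ := by
  rw [EuclideanSpace.norm_eq]
  unfold nrm nsq
  congr 1
  refine Finset.sum_congr rfl fun i _ => ?_
  simp [Real.norm_eq_abs, sq_abs]

theorem nrm_sub_le {d : ℕ} (x z : Site d) : nrm (x - z) ≤ nrm x + nrm z := by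
  rw [nrm_eq, nrm_eq, nrm_eq]
  have : (WithLp.toLp 2 (fun i => ((x - z) i : ℝ)) : EuclideanSpace ℝ (Fin d)) =
      WithLp.toLp 2 (fun i => (x i : ℝ)) - WithLp.toLp 2 (fun i => (z i : ℝ)) := by
    ext i
    simp
  have h2 : (WithLp.toLp 2 (fun i => (((x - z) i : ℤ) : ℝ)) : EuclideanSpace ℝ (Fin d)) =
      WithLp.toLp 2 (fun i => ((x - z) i : ℝ)) := rfl
  rw [h2, this]
  exact norm_sub_le _ _

theorem Geo_mono {d : ℕ} {c₀ C C' N : ℝ} {z : Site d} (h : Geo c₀ C N z) (hC : C' ≤ C) :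
    Geo c₀ C' N z := ⟨h.lo, by linarith [h.hi]⟩

theorem nsq_zero {d : ℕ} : nsq (0 : Site d) = 0 := by simp [nsq]

theorem nrm_zero {d : ℕ} : nrm (0 : Site d) = 0 := by simp [nrm, nsq_zero]

/-- the defect -/
theorem defect_eq {d : ℕ} (N : ℝ) (z x : Site d) :
    Ez N z x - nsq (x - z) = (N ^ 2 - nrm x ^ 2) * (N ^ 2 - nrm z ^ 2) / N ^ 2 := by
  unfold Ez
  rw [nrm_sq, nrm_sq]
  ring

theorem defect_lo {X Z N : ℝ} (hX : 0 ≤ X) (hZ : 0 ≤ Z) (hN : 0 < N) (hXN : X ≤ N) (hZN : Z ≤ N) :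
    (N - X) * (N - Z) ≤ (N ^ 2 - X ^ 2) * (N ^ 2 - Z ^ 2) / N ^ 2 := by
  rw [le_div_iff₀ (by positivity)]
  have h1 : (N - X) * N ≤ N ^ 2 - X ^ 2 := by nlinarith
  have h2 : (N - Z) * N ≤ N ^ 2 - Z ^ 2 := by nlinarith
  calc (N - X) * (N - Z) * N ^ 2 = ((N - X) * N) * ((N - Z) * N) := by ring
    _ ≤ (N ^ 2 - X ^ 2) * (N ^ 2 - Z ^ 2) :=
        mul_le_mul h1 h2 (mul_nonneg (by linarith) hN.le) (le_trans (mul_nonneg (by linarith) hN.le) h1)

theorem defect_hi {X Z N : ℝ} (hX : 0 ≤ X) (hZ : 0 ≤ Z) (hN : 0 < N) (hXN : X ≤ N) (hZN : Z ≤ N) :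
    (N ^ 2 - X ^ 2) * (N ^ 2 - Z ^ 2) / N ^ 2 ≤ 4 * ((N - X) * (N - Z)) := by
  rw [div_le_iff₀ (by positivity)]
  have h1 : N ^ 2 - X ^ 2 ≤ 2 * ((N - X) * N) := by nlinarith
  have h2 : N ^ 2 - Z ^ 2 ≤ 2 * ((N - Z) * N) := by nlinarith
  have h0 : 0 ≤ N ^ 2 - Z ^ 2 := by nlinarith
  calc (N ^ 2 - X ^ 2) * (N ^ 2 - Z ^ 2) ≤ (2 * ((N - X) * N)) * (2 * ((N - Z) * N)) :=
        mul_le_mul h1 h2 h0 (by
          have := mul_nonneg (sub_nonneg.2 hXN) hN.le
          linarith)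
    _ = 4 * ((N - X) * (N - Z)) * N ^ 2 := by ring

theorem t_IT : S_IT := by
  intro _ _ hSUH hBND hSD2 hMVI hMVO hCNT hLAT d hd
  obtain ⟨aS, haS, hS⟩ := hSUH d hd
  obtain ⟨aM, haM, hM⟩ := hMVI d hd
  obtain ⟨aO, haO, hO⟩ := hMVO d hd
  obtain ⟨CL, hCL, hL⟩ := hLAT d hd
  obtain ⟨hom, _⟩ := hCNT d hd
  refine ⟨aS, haS, ?_⟩
  intro a b c₀ ha hb hc0 hc1
  obtain ⟨C1, hC1, hS⟩ := hS a b c₀ ha hb hc0 hc1
  obtain ⟨C2, hC2, hB⟩ := hBND d a b 1 c₀ hd (by linarith) (by linarith) one_pos hc0 hc1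
  obtain ⟨C3, hC3, hD⟩ := hSD2 d a b c₀ hd (by linarith) (by linarith) hc0 hc1
  obtain ⟨C4, hC4, hM⟩ := hM (max aM aO) (le_max_left _ _)
  obtain ⟨C5, hC5, hO⟩ := hO (max aM aO) (c₀ / 4) (le_max_right _ _) (by positivity) (by linarith)
  set κ2 : ℝ := (c₀ ^ 2) ^ (-bt d) with hκ2
  have hκ2p : 0 < κ2 := Real.rpow_pos_of_pos (by positivity) _
  set KK : ℝ := C5 * (C3 + 2 * C2 * κ2 + 16 * C2 * CL) + C4 * (24 * C2 * CL) with hKK
  have hKKp : 0 ≤ KK := by positivity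
  have hbt : 0 < bt d := by
    unfold bt
    have : (3 : ℝ) ≤ d := by exact_mod_cast hd
    linarith
  refine ⟨C1 + C2 + C3 + C4 + C5 + KK + 10, by linarith, ?_⟩
  intro N z hN hG
  have hZ0 : 0 ≤ nrm z := nrm_nonneg z
  have hN1 : 10 ≤ N := by linarith
  have hNp : 0 < N := by linarith
  have hZN : nrm z + (C1 + C2 + C3 + C4 + C5 + KK + 10) ≤ N := hG.hi
  have hG1 : Geo c₀ C1 N z := Geo_mono hG (by linarith)
  have hG2 : Geo c₀ C2 N z := Geo_mono hG (by linarith)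
  have hG3 : Geo c₀ C3 N z := Geo_mono hG (by linarith)
  -- the defect
  have hDlo : ∀ x : Site d, nrm x ≤ N - 1 →
      C2 ≤ Ez N z x - nsq (x - z) ∧ 1 ≤ Ez N z x - nsq (x - z) := by
    intro x hx
    rw [defect_eq]
    have h1 := defect_lo (nrm_nonneg x) hZ0 hNp (by linarith) (by linarith : nrm z ≤ N)
    have h2 : 1 * (N - nrm z) ≤ (N - nrm x) * (N - nrm z) :=
      mul_le_mul_of_nonneg_right (by linarith) (by linarith)
    constructor <;> linarith
  have hSnn : ∀ x : Site d, 0 ≤ nsq (x - z) := fun x => nsq_nonneg _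
  have hpos : ∀ x : Site d, nrm x ≤ N - 1 → 0 ≤ uS d a b N z x := by
    intro x hx
    obtain ⟨h1, h2⟩ := hDlo x hx
    have h3 := (hB N z hG2 x (by linarith) h1).1
    have h4 : 0 ≤ (nsq (x - z) + 1) ^ (-bt d) * ((Ez N z x - nsq (x - z)) / Ez N z x) := by
      have := hSnn x
      have h5 : 0 < Ez N z x := by linarith
      have h6 : 0 < nsq (x - z) + 1 := by linarith
      have h7 : 0 ≤ (Ez N z x - nsq (x - z)) := by linarith
      positivity
    have h5 : 0 ≤ C2 * uS d a b N z x := h4.trans h3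
    exact nonneg_of_mul_nonneg_right h5 (by linarith)
  refine ⟨hpos, ?_⟩
  -- upper bounds of `uS`
  have hup : ∀ x : Site d, nrm x ≤ N - 1 → uS d a b N z x ≤
      C2 * ((nsq (x - z) + 1) ^ (-bt d) * ((Ez N z x - nsq (x - z)) / Ez N z x)) := by
    intro x hx
    exact (hB N z hG2 x (by linarith) (hDlo x hx).1).2.1
  have hup1 : ∀ x : Site d, nrm x ≤ N - 1 → uS d a b N z x ≤ C2 * (nsq (x - z) + 1) ^ (-bt d) := by
    intro x hx
    refine (hup x hx).trans ?_
    obtain ⟨_, h2⟩ := hDlo x hx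
    have := hSnn x
    have h5 : 0 < Ez N z x := by linarith
    have h6 : (Ez N z x - nsq (x - z)) / Ez N z x ≤ 1 := by
      rw [div_le_one h5]
      linarith
    have h7 : 0 ≤ (nsq (x - z) + 1) ^ (-bt d) := Real.rpow_nonneg (by linarith) _
    have h8 := mul_le_mul_of_nonneg_left h6 h7
    rw [mul_one] at h8
    exact mul_le_mul_of_nonneg_left h8 (by linarith)
  have hup2 : ∀ x : Site d, nrm x ≤ N - 1 → N - 3 ≤ nrm x → uS d a b N z x ≤
      12 * C2 * (N - nrm z) * (nsq (x - z) + 1) ^ (-((d : ℝ) / 2)) := by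
    intro x hx hx3
    refine (hup x hx).trans ?_
    obtain ⟨_, h2⟩ := hDlo x hx
    have h0 := hSnn x
    have h5 : 0 < Ez N z x := by linarith
    have h6 : Ez N z x - nsq (x - z) ≤ 12 * (N - nrm z) := by
      rw [defect_eq]
      refine (defect_hi (nrm_nonneg x) hZ0 hNp (by linarith) (by linarith)).trans ?_
      have : (N - nrm x) * (N - nrm z) ≤ 3 * (N - nrm z) :=
        mul_le_mul_of_nonneg_right (by linarith) (by linarith)
      linarith
    have h7 : (Ez N z x - nsq (x - z)) / Ez N z x ≤ 12 * (N - nrm z) / (nsq (x - z) + 1) :=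
      div_le_div₀ (by linarith) h6 (by linarith) (by linarith)
    have h8 : 0 < nsq (x - z) + 1 := by linarith
    have h9 : (nsq (x - z) + 1) ^ (-((d : ℝ) / 2)) =
        (nsq (x - z) + 1) ^ (-bt d) * (1 / (nsq (x - z) + 1)) := by
      rw [show -((d : ℝ) / 2) = -bt d - 1 by unfold bt; ring, Real.rpow_sub h8, Real.rpow_one]
      ring
    have h10 : 0 ≤ (nsq (x - z) + 1) ^ (-bt d) := Real.rpow_nonneg h8.le _
    calc C2 * ((nsq (x - z) + 1) ^ (-bt d) * ((Ez N z x - nsq (x - z)) / Ez N z x))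
        ≤ C2 * ((nsq (x - z) + 1) ^ (-bt d) * (12 * (N - nrm z) / (nsq (x - z) + 1))) :=
          mul_le_mul_of_nonneg_left (mul_le_mul_of_nonneg_left h7 h10) (by linarith)
      _ = 12 * C2 * (N - nrm z) * (nsq (x - z) + 1) ^ (-((d : ℝ) / 2)) := by
          rw [h9]; ring
  set ρ : ℝ := N - 2 with hρ
  have hρ1 : 1 ≤ ρ := by linarith
  have hρN : N / 2 ≤ ρ := by linarith
  set f : Site d → ℝ := uS d a b N z with hf
  have hlogN : 0 ≤ Real.log N := Real.log_nonneg (by linarith)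
  have hY0 : 1 ≤ N - nrm z := by linarith
  have hY : 0 ≤ N - nrm z := by linarith
  -- MVI
  obtain ⟨psi, hp0, _, _, _, hMf⟩ := hM ρ (by linarith)
  have hMf := hMf f (fun x hx => hpos x (by linarith))
  have hpsi : 0 ≤ ∑ x ∈ bF d ρ, psi x * (f x - PP f x) := by
    refine Finset.sum_nonneg fun x hx => mul_nonneg (hp0 x) ?_
    rw [mem_bF] at hx
    have := (hS N z hG1 x (by linarith)).1
    linarith
  -- the layer
  have hlay : ∑ x ∈ bF d (ρ + 1) \ bF d (ρ - 1), f x ≤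
      24 * C2 * CL * (N - nrm z) * (1 + Real.log N) := by
    have h1 := ((hL (2 * N) z (bF d (ρ + 1) \ bF d (ρ - 1)) (by linarith)).1 (by
      intro y hy
      rw [mem_sdiff, mem_bF, mem_bF] at hy
      have := nrm_sub_le y z
      linarith)).2.2
    have h2 : ∑ x ∈ bF d (ρ + 1) \ bF d (ρ - 1), f x ≤ ∑ x ∈ bF d (ρ + 1) \ bF d (ρ - 1),
        12 * C2 * (N - nrm z) * (nsq (x - z) + 1) ^ (-((d : ℝ) / 2)) := by
      refine Finset.sum_le_sum fun x hx => ?_
      rw [mem_sdiff, mem_bF, mem_bF, not_le] at hx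
      exact hup2 x (by linarith) (by linarith)
    rw [← Finset.mul_sum] at h2
    have h3 : Real.log (2 * N) ≤ 1 + Real.log N := by
      rw [Real.log_mul (by norm_num) (by linarith)]
      have : Real.log 2 ≤ 1 := by
        have := Real.log_two_lt_d9
        linarith
      linarith
    calc ∑ x ∈ bF d (ρ + 1) \ bF d (ρ - 1), f x
        ≤ 12 * C2 * (N - nrm z) * ∑ x ∈ bF d (ρ + 1) \ bF d (ρ - 1),
          (nsq (x - z) + 1) ^ (-((d : ℝ) / 2)) := h2
      _ ≤ 12 * C2 * (N - nrm z) * (CL * (1 + Real.log (2 * N))) :=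
          mul_le_mul_of_nonneg_left h1 (by positivity)
      _ ≤ 12 * C2 * (N - nrm z) * (CL * (2 * (1 + Real.log N))) := by
          refine mul_le_mul_of_nonneg_left (mul_le_mul_of_nonneg_left (by linarith) (by linarith))
            (by positivity)
      _ = 24 * C2 * CL * (N - nrm z) * (1 + Real.log N) := by ring
  -- the total mass, crude bound
  have htot : (∑ x ∈ bF d ρ, f x) / ρ ^ 2 ≤ 16 * C2 * CL := by
    have h1 := ((hL (2 * N) z (bF d ρ) (by linarith)).1 (by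
      intro y hy
      rw [mem_bF] at hy
      have := nrm_sub_le y z
      linarith)).2.1
    have h2 : ∑ x ∈ bF d ρ, f x ≤ ∑ x ∈ bF d ρ, C2 * (nsq (x - z) + 1) ^ (-bt d) := by
      refine Finset.sum_le_sum fun x hx => ?_
      rw [mem_bF] at hx
      exact hup1 x (by linarith)
    rw [← Finset.mul_sum] at h2
    rw [div_le_iff₀ (by positivity)]
    calc ∑ x ∈ bF d ρ, f x ≤ C2 * ∑ x ∈ bF d ρ, (nsq (x - z) + 1) ^ (-bt d) := h2
      _ ≤ C2 * (CL * (2 * N) ^ 2) := mul_le_mul_of_nonneg_left h1 (by linarith)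
      _ = 16 * C2 * CL * (N / 2) ^ 2 := by ring
      _ ≤ 16 * C2 * CL * ρ ^ 2 :=
          mul_le_mul_of_nonneg_left (pow_le_pow_left₀ (by linarith) hρN 2) (by positivity)
  -- the value at the origin
  have hf0 : 0 ≤ f 0 := hpos 0 (by rw [nrm_zero]; linarith)
  have h0 : ρ ^ d / ρ ^ 2 * f 0 ≤ 2 * C2 * κ2 * (N - nrm z) := by
    have h1 := hup 0 (by rw [nrm_zero]; linarith)
    have e1 : nsq (0 - z) = nrm z ^ 2 := by
      rw [nrm_sq]
      unfold nsq
      simp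
    have e2 : Ez N z 0 - nsq (0 - z) = N ^ 2 - nrm z ^ 2 := by
      rw [defect_eq, nrm_zero]
      field_simp
      ring
    have e3 : Ez N z 0 = N ^ 2 := by
      have := e2
      rw [e1] at this
      linarith
    rw [e2, e3, e1] at h1
    have h2 : (N ^ 2 - nrm z ^ 2) / N ^ 2 ≤ 2 * (N - nrm z) := by
      rw [div_le_iff₀ (by positivity)]
      have h21 : N + nrm z ≤ 2 * N ^ 2 := by
        have : N * 1 ≤ N * N := mul_le_mul_of_nonneg_left (by linarith) hNp.le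
        have h22 : nrm z ≤ N := by linarith
        rw [sq]
        linarith
      calc N ^ 2 - nrm z ^ 2 = (N - nrm z) * (N + nrm z) := by ring
        _ ≤ (N - nrm z) * (2 * N ^ 2) := mul_le_mul_of_nonneg_left h21 hY
        _ = 2 * (N - nrm z) * N ^ 2 := by ring
    have h3 : (nrm z ^ 2 + 1) ^ (-bt d) ≤ κ2 * (N ^ 2) ^ (-bt d) := by
      rw [hκ2, ← Real.mul_rpow (by positivity) (by positivity)]
      refine Real.rpow_le_rpow_of_nonpos (by positivity) ?_ (by linarith)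
      have := pow_le_pow_left₀ (by positivity) hG.lo 2
      rw [mul_pow] at this
      linarith
    have h4 : ρ ^ d / ρ ^ 2 ≤ (N ^ 2) ^ (bt d) := by
      have h41 : (ρ : ℝ) ^ d / ρ ^ 2 = ρ ^ (d - 2) := by
        rw [div_eq_iff (by positivity), ← pow_add]
        congr 1
        omega
      have h42 : (N ^ 2) ^ (bt d) = N ^ (d - 2) := by
        rw [← Real.rpow_natCast N 2, ← Real.rpow_mul hNp.le, ← Real.rpow_natCast N (d - 2)]
        congr 1
        unfold bt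
        rw [Nat.cast_sub (by omega)]
        push_cast
        ring
      rw [h41, h42]
      exact pow_le_pow_left₀ (by linarith) (by linarith) _
    have h5 : (N ^ 2) ^ (bt d) * (N ^ 2) ^ (-bt d) = 1 := by
      rw [← Real.rpow_add (by positivity), add_neg_cancel, Real.rpow_zero]
    have h6 : f 0 ≤ C2 * ((κ2 * (N ^ 2) ^ (-bt d)) * (2 * (N - nrm z))) := by
      refine h1.trans (mul_le_mul_of_nonneg_left ?_ (by linarith))
      refine mul_le_mul h3 h2 ?_ ?_
      · refine div_nonneg ?_ (by positivity)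
        have : nrm z ^ 2 ≤ N ^ 2 := pow_le_pow_left₀ hZ0 (by linarith) 2
        linarith
      · exact mul_nonneg hκ2p.le (Real.rpow_nonneg (by positivity) _)
    have h7 : 0 ≤ (N ^ 2) ^ (bt d) := Real.rpow_nonneg (by positivity) _
    calc ρ ^ d / ρ ^ 2 * f 0 ≤ (N ^ 2) ^ (bt d) * (C2 * ((κ2 * (N ^ 2) ^ (-bt d)) * (2 * (N - nrm z)))) :=
          mul_le_mul h4 h6 hf0 h7
      _ = 2 * C2 * κ2 * (N - nrm z) * ((N ^ 2) ^ (bt d) * (N ^ 2) ^ (-bt d)) := by ring
      _ = 2 * C2 * κ2 * (N - nrm z) := by rw [h5, mul_one]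
  -- MVO
  have hMO := hO ρ (C3 * (N - nrm z) / N ^ (d + 1)) f (by linarith) (by positivity)
    (fun x hx => hpos x (by linarith)) (by
      intro x hx
      refine hD N z hG3 x ?_
      have h1 := hG.lo
      have h2 : c₀ / 4 * ρ ≤ c₀ / 4 * N := mul_le_mul_of_nonneg_left (by linarith) (by positivity)
      linarith)
  have hBt : ρ ^ d * (C3 * (N - nrm z) / N ^ (d + 1)) * (1 + Real.log ρ) ≤
      C3 * (N - nrm z) * (1 + Real.log N) := by
    have h1 : ρ ^ d * (C3 * (N - nrm z) / N ^ (d + 1)) ≤ C3 * (N - nrm z) := by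
      rw [mul_div_assoc', div_le_iff₀ (by positivity)]
      have h2 : ρ ^ d ≤ N ^ (d + 1) :=
        (pow_le_pow_left₀ (by linarith) (by linarith) d).trans
          (pow_le_pow_right₀ (by linarith) (Nat.le_succ d))
      have h3 : 0 ≤ C3 * (N - nrm z) := by positivity
      calc ρ ^ d * (C3 * (N - nrm z)) = C3 * (N - nrm z) * ρ ^ d := by ring
        _ ≤ C3 * (N - nrm z) * N ^ (d + 1) := mul_le_mul_of_nonneg_left h2 h3
    have h2 : Real.log ρ ≤ Real.log N := Real.log_le_log (by linarith) (by linarith)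
    have h3 : 0 ≤ Real.log ρ := Real.log_nonneg hρ1
    exact mul_le_mul h1 (by linarith) (by linarith) (by positivity)
  have hom1 : om d * ρ ^ d * f 0 ≤ om d * N ^ d * f 0 := by
    refine mul_le_mul_of_nonneg_right (mul_le_mul_of_nonneg_left ?_ hom.le) hf0
    exact pow_le_pow_left₀ (by linarith) (by linarith) d
  have hA := (abs_le.1 hMf).2
  have hA' := (abs_le.1 hMO).2
  have hY2 : N - nrm z ≤ (N - nrm z) * (1 + Real.log N) := le_mul_of_one_le_right hY (by linarith)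
  have hY1 : 1 ≤ (N - nrm z) * (1 + Real.log N) := hY0.trans hY2
  have hfin : C5 * (ρ ^ d * (C3 * (N - nrm z) / N ^ (d + 1)) * (1 + Real.log ρ) +
      ρ ^ d / ρ ^ 2 * f 0 + (∑ x ∈ bF d ρ, f x) / ρ ^ 2) ≤
      C5 * ((C3 + 2 * C2 * κ2 + 16 * C2 * CL) * ((N - nrm z) * (1 + Real.log N))) := by
    refine mul_le_mul_of_nonneg_left ?_ (by linarith)
    have h1 : 2 * C2 * κ2 * (N - nrm z) ≤ 2 * C2 * κ2 * ((N - nrm z) * (1 + Real.log N)) :=
      mul_le_mul_of_nonneg_left hY2 (by positivity)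
    have h2 : 16 * C2 * CL * 1 ≤ 16 * C2 * CL * ((N - nrm z) * (1 + Real.log N)) :=
      mul_le_mul_of_nonneg_left hY1 (by positivity)
    linarith
  have hfin2 : C4 * ∑ x ∈ bF d (ρ + 1) \ bF d (ρ - 1), f x ≤
      C4 * (24 * C2 * CL) * ((N - nrm z) * (1 + Real.log N)) := by
    have := mul_le_mul_of_nonneg_left hlay (by linarith : 0 ≤ C4)
    linarith
  have hlast : KK * ((N - nrm z) * (1 + Real.log N)) ≤
      (C1 + C2 + C3 + C4 + C5 + KK + 10) * ((N - nrm z) * (1 + Real.log N)) :=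
    mul_le_mul_of_nonneg_right (by linarith) (by linarith)
  have hKe : KK * ((N - nrm z) * (1 + Real.log N)) =
      C5 * ((C3 + 2 * C2 * κ2 + 16 * C2 * CL) * ((N - nrm z) * (1 + Real.log N))) +
      C4 * (24 * C2 * CL) * ((N - nrm z) * (1 + Real.log N)) := by
    rw [hKK]; ring
  rw [mul_assoc (C1 + C2 + C3 + C4 + C5 + KK + 10)]
  linarith

end Pool.Agent.H43.BD
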